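import Pool.Agent.TH629.Tree.Sets

/-!
No terminal lies in the interior of a segment of the tree.
-/

set_option autoImplicit false

namespace Pool.Agent.TH629.Tree

open scoped ENNReal NNReal Topology
open MeasureTheory Metric Filter Pool.Agent.Helper752

/-- A point where a linear function has a strict local maximum on `S` is not in the interior of a
segment contained in `S`. -/
theorem no_open {S : Set E2} {a : E2} {δ : ℝ} (hδ : 0 < δ) (u v : ℝ)
    (h : ∀ z ∈ S, dist z a < δ → z ≠ a → u * z 0 + v * z 1 < u * a 0 + v * a 1) :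
    ¬ ∃ x y : E2, x ≠ y ∧ segment ℝ x y ⊆ S ∧ a ∈ openSegment ℝ x y := by
  rintro ⟨x, y, hxy, hS, s, t, hs, ht, hst, rfl⟩
  have hd : 0 < dist x y := dist_pos.2 hxy
  obtain ⟨ε, hε0, hεs, hεt, hεd⟩ : ∃ ε : ℝ, 0 < ε ∧ ε ≤ s ∧ ε ≤ t ∧ ε * dist x y < δ := by
    refine ⟨min (min s t) (δ / (2 * dist x y)), ?_, ?_, ?_, ?_⟩
    · exact lt_min (lt_min hs ht) (by positivity)
    · exact (min_le_left _ _).trans (min_le_left _ _)
    · exact (min_le_left _ _).trans (min_le_right _ _)
    · calc min (min s t) (δ / (2 * dist x y)) * dist x y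
          ≤ δ / (2 * dist x y) * dist x y :=
            mul_le_mul_of_nonneg_right (min_le_right _ _) hd.le
        _ = δ / 2 := by field_simp
        _ < δ := by linarith
  have hm : ∀ e : ℝ, |e| ≤ ε → (s - e) • x + (t + e) • y ∈ segment ℝ x y := by
    intro e he
    have := abs_le.1 he
    exact ⟨s - e, t + e, by linarith, by linarith, by linarith, rfl⟩
  have hdist : ∀ e : ℝ, |e| ≤ ε → dist ((s - e) • x + (t + e) • y) (s • x + t • y) < δ := by
    intro e he
    have e1 : (s - e) • x + (t + e) • y - (s • x + t • y) = e • (y - x) := by module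
    rw [dist_eq_norm, e1, norm_smul, Real.norm_eq_abs, ← dist_eq_norm, dist_comm]
    exact lt_of_le_of_lt (mul_le_mul_of_nonneg_right he dist_nonneg) hεd
  have hne : ∀ e : ℝ, e ≠ 0 → (s - e) • x + (t + e) • y ≠ s • x + t • y := by
    intro e he h1
    have e1 : (s - e) • x + (t + e) • y - (s • x + t • y) = e • (y - x) := by module
    rw [h1, sub_self] at e1
    rcases smul_eq_zero.1 e1.symm with h2 | h2
    · exact he h2
    · exact hxy (sub_eq_zero.1 h2).symm
  have h1 := h _ (hS (hm ε (by rw [abs_of_pos hε0]))) (hdist ε (by rw [abs_of_pos hε0]))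
    (hne ε hε0.ne')
  have h2 := h _ (hS (hm (-ε) (by rw [abs_neg, abs_of_pos hε0])))
    (hdist (-ε) (by rw [abs_neg, abs_of_pos hε0])) (hne (-ε) (neg_ne_zero.2 hε0.ne'))
  simp only [PiLp.add_apply, PiLp.smul_apply, smul_eq_mul] at h1 h2
  nlinarith

/-- a linear bound on a segment -/
theorem seg_le {a b z : E2} (hz : z ∈ segment ℝ a b) {u v c : ℝ} (ha : u * a 0 + v * a 1 ≤ c)
    (hb : u * b 0 + v * b 1 ≤ c) : u * z 0 + v * z 1 ≤ c := by
  obtain ⟨s, t, hs, ht, hst, rfl⟩ := hz
  simp only [PiLp.add_apply, PiLp.smul_apply, smul_eq_mul]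
  have h1 := mul_le_mul_of_nonneg_left ha hs
  have h2 := mul_le_mul_of_nonneg_left hb ht
  have h3 : s * c + t * c = c := by rw [← add_mul, hst, one_mul]
  nlinarith

/-- a strict linear bound on a segment -/
theorem seg_lt {a b z : E2} (hz : z ∈ segment ℝ a b) {u v c : ℝ} (ha : u * a 0 + v * a 1 < c)
    (hb : u * b 0 + v * b 1 < c) : u * z 0 + v * z 1 < c :=
  lt_of_le_of_lt (seg_le hz (le_max_left _ _) (le_max_right _ _)) (max_lt ha hb)

/-- a strict linear bound on a segment, except at the left end -/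
theorem seg_lt_left {a b z : E2} (hz : z ∈ segment ℝ a b) (hza : z ≠ a) {u v c : ℝ}
    (ha : u * a 0 + v * a 1 = c) (hb : u * b 0 + v * b 1 < c) : u * z 0 + v * z 1 < c := by
  obtain ⟨s, t, hs, ht, hst, rfl⟩ := hz
  have ht' : 0 < t := by
    rcases ht.eq_or_lt with h | h
    · exfalso
      apply hza
      subst h
      rw [add_zero] at hst
      rw [hst, one_smul, zero_smul, add_zero]
    · exact h
  simp only [PiLp.add_apply, PiLp.smul_apply, smul_eq_mul]
  have h2 := mul_lt_mul_of_pos_left hb ht'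
  have h3 : s * c + t * c = c := by rw [← add_mul, hst, one_mul]
  have h4 : s * (u * a 0 + v * a 1) = s * c := by rw [ha]
  nlinarith

theorem seg_lt_right {a b z : E2} (hz : z ∈ segment ℝ a b) (hzb : z ≠ b) {u v c : ℝ}
    (ha : u * a 0 + v * a 1 < c) (hb : u * b 0 + v * b 1 = c) : u * z 0 + v * z 1 < c := by
  rw [segment_symm] at hz
  exact seg_lt_left hz hzb hb ha

/-- linear functions on the chain with a strict maximum at a vertex -/
theorem chain_lt {u v : ℝ} (k : ℕ)
    (h : ∀ j, j ≠ k → u * fx (hh j) + v * fy (hh j) < u * fx (hh k) + v * fy (hh k))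
    (h0 : u * fx 0 + v * fy 0 < u * fx (hh k) + v * fy (hh k)) (z : E2) (hz : z ∈ Z)
    (hzk : z ≠ pt (hh k)) : u * z 0 + v * z 1 < u * fx (hh k) + v * fy (hh k) := by
  rcases hz with hz | hz
  · obtain ⟨j, hj⟩ := Set.mem_iUnion.1 hz
    by_cases h1 : j = k
    · subst h1
      exact seg_lt_left hj hzk (by simp [pt]) (by
        have := h (j + 1) (by omega)
        simpa [pt] using this)
    · by_cases h2 : j + 1 = k
      · subst h2
        exact seg_lt_right hj hzk (by
          have := h j h1
          simpa [pt] using this) (by simp [pt])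
      · exact seg_lt hj (by
          have := h j h1
          simpa [pt] using this) (by
          have := h (j + 1) h2
          simpa [pt] using this)
  · rw [Set.mem_singleton_iff] at hz
    rw [hz]
    simpa [pt] using h0

/-- the linear functions for the vertices of the chain -/
theorem node_lt (k j : ℕ) (hj : j ≠ k) :
    -(1 / 5 + (3 / 40) * hh k) * fx (hh j) + 1 * fy (hh j)
      < -(1 / 5 + (3 / 40) * hh k) * fx (hh k) + 1 * fy (hh k) := by
  have h1 := hh_pos k
  have h2 := hh_pos j
  have key : 2 * hh k ≤ hh j ∨ hh j ≤ hh k / 2 := by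
    rcases Nat.lt_or_gt_of_ne hj with h | h
    · left
      have h3 := hh_anti (show j + 1 ≤ k by omega)
      rw [hh_succ] at h3
      linarith
    · right
      have h3 := hh_anti (show k + 1 ≤ j by omega)
      rwa [hh_succ] at h3
  unfold fx fy
  rcases key with h | h
  · nlinarith
  · nlinarith

theorem node_lt_zero (k : ℕ) :
    -(1 / 5 + (3 / 40) * hh k) * fx 0 + 1 * fy 0
      < -(1 / 5 + (3 / 40) * hh k) * fx (hh k) + 1 * fy (hh k) := by
  have h1 := hh_pos k
  unfold fx fy
  nlinarith

theorem SA_x (z : E2) (hz : z ∈ SA) : z 0 ≤ 1 := by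
  have h1 := sq3_lo
  have h2 := sq3_hi
  have h : (1 : ℝ) * z 0 + 0 * z 1 ≤ 1 := by
    rcases hz with (((hz | hz) | hz) | hz) | hz
    · exact seg_le hz (by simp) (by simp; linarith)
    · exact seg_le hz (by simp) (by simp; linarith)
    · exact seg_le hz (by simp; linarith) (by simp; linarith)
    · exact seg_le hz (by simp; linarith) (by simp)
    · exact seg_le hz (by simp; linarith) (by simp)
  linarith

theorem abs_coord (z a : E2) (i : Fin 2) : |z i - a i| ≤ dist z a := by
  rw [EuclideanSpace.dist_eq]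
  apply Real.abs_le_sqrt
  rw [Fin.sum_univ_two, Real.dist_eq, Real.dist_eq, sq_abs, sq_abs]
  fin_cases i
  · simp only [Fin.zero_eta]
    nlinarith [sq_nonneg (z 1 - a 1)]
  · simp only [Fin.mk_one]
    nlinarith [sq_nonneg (z 0 - a 0)]

/-- an inner vertex of the chain -/
theorem term_chain (k : ℕ) : ¬ ∃ x y : E2, x ≠ y ∧ segment ℝ x y ⊆ SA ∪ Z ∧
    pt (hh (k + 1)) ∈ openSegment ℝ x y := by
  have hk : hh (k + 1) < 1 := by
    rw [hh_succ]
    have := hh_le k
    linarith
  apply no_open (δ := fx (hh (k + 1)) - 1) (by unfold fx; linarith)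
    (-(1 / 5 + (3 / 40) * hh (k + 1))) 1
  intro z hz hd hne
  have hzZ : z ∈ Z := by
    rcases hz with hz | hz
    · exfalso
      have h1 := SA_x z hz
      have h2 := abs_coord z (pt (hh (k + 1))) 0
      have h3 := abs_le.1 (h2.trans hd.le)
      have h5 : (pt (hh (k + 1))) 0 = fx (hh (k + 1)) := by simp [pt]
      have h4 := lt_of_le_of_lt h2 hd
      rw [h5] at h4
      rw [abs_lt] at h4
      linarith [h4.1]
    · exact hz
  have := chain_lt (k + 1) (node_lt (k + 1)) (node_lt_zero (k + 1)) z hzZ hne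
  simpa [pt] using this

/-- the end of the chain -/
theorem term_end : ¬ ∃ x y : E2, x ≠ y ∧ segment ℝ x y ⊆ SA ∪ Z ∧ pt 0 ∈ openSegment ℝ x y := by
  apply no_open (δ := 1 / 200) (by norm_num) 1 0
  intro z hz hd hne
  have hf : ∀ k, fx (hh k) < fx 0 := by
    intro k
    have := hh_pos k
    unfold fx
    linarith
  rcases hz with hz | hz
  · have h1 := SA_x z hz
    simp [pt, fx]
    linarith
  · rcases hz with hz | hz
    · obtain ⟨j, hj⟩ := Set.mem_iUnion.1 hz
      have := seg_lt hj (u := 1) (v := 0) (c := fx 0) (by simpa [pt] using hf j)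
        (by simpa [pt] using hf (j + 1))
      simpa [pt] using this
    · exact absurd hz hne

/-- the corner `(1, 1)` -/
theorem term_one : ¬ ∃ x y : E2, x ≠ y ∧ segment ℝ x y ⊆ SA ∪ Z ∧
    pt (hh 0) ∈ openSegment ℝ x y := by
  have s1 := sq3_lo
  have s2 := sq3_hi
  apply no_open (δ := 1 / 2) (by norm_num) (-(1 / 2)) 1
  intro z hz hd hne
  have hx := lt_of_le_of_lt (abs_coord z (pt (hh 0)) 0) hd
  have hy := lt_of_le_of_lt (abs_coord z (pt (hh 0)) 1) hd
  rw [pt_one] at hx hy
  rw [abs_lt] at hx hy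
  simp at hx hy
  rw [pt_one] at hne
  rcases hz with hz | hz
  · rw [pt_one]
    rcases hz with (((hz | hz) | hz) | hz) | hz
    · exfalso
      have := seg_le hz (u := 1) (v := 0) (c := 0) (by simp) (by simp; linarith)
      linarith [hx.1]
    · exfalso
      have := seg_le hz (u := 1) (v := 0) (c := 0) (by simp) (by simp; linarith)
      linarith [hx.1]
    · exfalso
      have := seg_le hz (u := 0) (v := 1) (c := 0) (by simp) (by simp)
      linarith [hy.1]
    · apply seg_lt_right hz hne _ rfl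
      simp
      linarith
    · exfalso
      have := seg_le hz (u := 0) (v := 1) (c := 0) (by simp) (by simp)
      linarith [hy.1]
  · rw [← pt_one] at hne
    have := chain_lt (u := -(1 / 2)) (v := 1) 0 (by
      intro j hj
      have h1 : hh j < 1 := by
        rw [← hh_zero]
        rcases Nat.exists_eq_succ_of_ne_zero hj with ⟨i, rfl⟩
        have h2 := hh_anti (show 1 ≤ i.succ by omega)
        have h3 := hh_succ 0
        have h4 := hh_pos 0
        linarith
      have h2 := hh_pos j
      rw [hh_zero]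
      unfold fx fy
      nlinarith) (by
      rw [hh_zero]
      unfold fx fy
      norm_num) z hz hne
    simpa [pt] using this

theorem Z_box (z : E2) (hz : z ∈ Z) : 1 ≤ z 0 ∧ z 0 ≤ 1.01 ∧ 1 ≤ z 1 ∧ z 1 ≤ 1.01 := by
  have hf : ∀ h : ℝ, 0 ≤ h → h ≤ 1 → 1 ≤ fx h ∧ fx h ≤ 1.01 ∧ 1 ≤ fy h ∧ fy h ≤ 1.01 := by
    intro h h0 h1
    unfold fx fy
    refine ⟨by nlinarith, by nlinarith, by nlinarith, by nlinarith⟩
  rcases hz with hz | hz
  · obtain ⟨j, hj⟩ := Set.mem_iUnion.1 hz
    obtain ⟨a1, a2, a3, a4⟩ := hf (hh j) (hh_pos j).le (hh_le j)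
    obtain ⟨b1, b2, b3, b4⟩ := hf (hh (j + 1)) (hh_pos _).le (hh_le _)
    have e1 := seg_le hj (u := -1) (v := 0) (c := -1) (by simp [pt]; linarith)
      (by simp [pt]; linarith)
    have e2 := seg_le hj (u := 1) (v := 0) (c := 1.01) (by simp [pt]; linarith)
      (by simp [pt]; linarith)
    have e3 := seg_le hj (u := 0) (v := -1) (c := -1) (by simp [pt]; linarith)
      (by simp [pt]; linarith)
    have e4 := seg_le hj (u := 0) (v := 1) (c := 1.01) (by simp [pt]; linarith)
      (by simp [pt]; linarith)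
    exact ⟨by linarith, by linarith, by linarith, by linarith⟩
  · rw [Set.mem_singleton_iff] at hz
    rw [hz]
    simpa [pt] using hf 0 le_rfl zero_le_one

/-- the corner `(-1, 1)` -/
theorem term_two : ¬ ∃ x y : E2, x ≠ y ∧ segment ℝ x y ⊆ SA ∪ Z ∧
    (!₂[-1, 1] : E2) ∈ openSegment ℝ x y := by
  have s1 := sq3_lo
  have s2 := sq3_hi
  apply no_open (δ := 1) (by norm_num) (-1) 1
  intro z hz hd hne
  have e : (-1 : ℝ) * (!₂[-1, 1] : E2) 0 + 1 * (!₂[-1, 1] : E2) 1 = 2 := by simp; norm_num
  rw [e]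
  rcases hz with hz | hz
  · rcases hz with (((hz | hz) | hz) | hz) | hz
    · exact seg_lt_left hz hne e (by simp; linarith)
    · exact seg_lt hz (by simp) (by simp; linarith)
    · exact seg_lt hz (by simp; linarith) (by simp; linarith)
    · exact seg_lt hz (by simp; linarith) (by simp)
    · exact seg_lt hz (by simp; linarith) (by simp; norm_num)
  · obtain ⟨h1, h2, h3, h4⟩ := Z_box z hz
    linarith

/-- the corner `(-1, -1)` -/
theorem term_three : ¬ ∃ x y : E2, x ≠ y ∧ segment ℝ x y ⊆ SA ∪ Z ∧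
    (!₂[-1, -1] : E2) ∈ openSegment ℝ x y := by
  have s1 := sq3_lo
  have s2 := sq3_hi
  apply no_open (δ := 1) (by norm_num) (-1) (-1)
  intro z hz hd hne
  have e : (-1 : ℝ) * (!₂[-1, -1] : E2) 0 + (-1) * (!₂[-1, -1] : E2) 1 = 2 := by simp; norm_num
  rw [e]
  rcases hz with hz | hz
  · rcases hz with (((hz | hz) | hz) | hz) | hz
    · exact seg_lt hz (by simp) (by simp; linarith)
    · exact seg_lt_left hz hne e (by simp; linarith)
    · exact seg_lt hz (by simp; linarith) (by simp; linarith)
    · exact seg_lt hz (by simp; linarith) (by simp; norm_num)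
    · exact seg_lt hz (by simp; linarith) (by simp)
  · obtain ⟨h1, h2, h3, h4⟩ := Z_box z hz
    linarith

/-- the corner `(1, -1)` -/
theorem term_four : ¬ ∃ x y : E2, x ≠ y ∧ segment ℝ x y ⊆ SA ∪ Z ∧
    (!₂[1, -1] : E2) ∈ openSegment ℝ x y := by
  have s1 := sq3_lo
  have s2 := sq3_hi
  apply no_open (δ := 1) (by norm_num) 1 (-1)
  intro z hz hd hne
  have e : (1 : ℝ) * (!₂[1, -1] : E2) 0 + (-1) * (!₂[1, -1] : E2) 1 = 2 := by simp; norm_num
  rw [e]
  rcases hz with hz | hz
  · rcases hz with (((hz | hz) | hz) | hz) | hz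
    · exact seg_lt hz (by simp; norm_num) (by simp; linarith)
    · exact seg_lt hz (by simp) (by simp; linarith)
    · exact seg_lt hz (by simp; linarith) (by simp; linarith)
    · exact seg_lt hz (by simp; linarith) (by simp)
    · exact seg_lt_right hz hne (by simp; linarith) e
  · obtain ⟨h1, h2, h3, h4⟩ := Z_box z hz
    linarith

theorem term_all : ¬ ∃ a ∈ AA,
    (∃ x y : E2, x ≠ y ∧ segment ℝ x y ⊆ SA ∪ Z ∧ a ∈ openSegment ℝ x y) := by
  rintro ⟨a, ha, h⟩
  rcases ha with (ha | ⟨k, rfl⟩) | ha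
  · rw [ha] at h
    exact term_end h
  · rcases k with _ | k
    · exact term_one h
    · exact term_chain k h
  · rcases ha with rfl | rfl | rfl
    · exact term_two h
    · exact term_three h
    · exact term_four h

/-- the trees are different -/
theorem ST_ne : SA ∪ Z ≠ SB ∪ Z := by
  have s1 := sq3_lo
  have s2 := sq3_hi
  intro h
  have h1 : (!₂[1 - √3 / 3, 0] : E2) ∈ SA ∪ Z := Or.inl (Or.inr (left_mem_segment ℝ _ _))
  rw [h] at h1
  have key : ∀ z : E2, z ∈ SB → z 0 ≤ z 1 ∨ z 0 ≤ -z 1 := by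
    intro z hz
    rcases hz with (((hz | hz) | hz) | hz) | hz
    · right
      have := seg_le hz (u := 1) (v := 1) (c := 0) (by simp) (by simp; try linarith)
      linarith
    · right
      have := seg_le hz (u := 1) (v := 1) (c := 0) (by simp) (by simp; linarith)
      linarith
    · have e1 := seg_le hz (u := 1) (v := 0) (c := 0) (by simp) (by simp)
      rcases le_total 0 (z 1) with h2 | h2
      · left; linarith
      · right; linarith
    · left
      have := seg_le hz (u := 1) (v := -1) (c := 0) (by simp; linarith) (by simp)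
      linarith
    · left
      have := seg_le hz (u := 1) (v := -1) (c := 0) (by simp; linarith) (by simp)
      linarith
  rcases h1 with h1 | h1
  · have := key _ h1
    simp at this
    linarith
  · have := (Z_box _ h1).2.2.1
    simp at this
    linarith

end Pool.Agent.TH629.Tree
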