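import Pool.Agent.TH629.Tree.Lower

/-!
The lower bound for the length of connected sets, final form.
-/

set_option autoImplicit false

namespace Pool.Agent.TH629.Tree

open scoped ENNReal NNReal
open MeasureTheory Metric Pool.Agent.Helper752

/-- the length of an edge of the chain -/
noncomputable def ll (k : ℕ) : ℝ :=
  cc k * (fx (hh (k + 1)) - fx (hh k)) + ss k * (fy (hh (k + 1)) - fy (hh k))

theorem fx_diff (k : ℕ) : fx (hh (k + 1)) - fx (hh k) = hh k / 400 := by
  unfold fx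
  rw [hh_succ]
  ring

theorem fy_diff (k : ℕ) : fy (hh (k + 1)) - fy (hh k) = mm k * (hh k / 400) := by
  unfold fy mm
  rw [hh_succ]
  ring

theorem ll_nonneg (k : ℕ) : 0 ≤ ll k := by
  unfold ll
  rw [fx_diff, fy_diff]
  have h1 := cc_pos k
  have h2 := ss_pos k
  have h3 := hh_pos k
  have h4 := mm_lo k
  have h5 : 0 < mm k := by linarith
  positivity

theorem ll_le (k : ℕ) : ll k ≤ hh k / 200 := by
  unfold ll
  rw [fx_diff, fy_diff]
  have h1 := cc_hi k
  have h2 := ss_hi k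
  have h3 := hh_pos k
  have h4 := mm_hi k
  have h5 := mm_lo k
  have h6 : ss k * mm k ≤ 1 := by nlinarith
  nlinarith

/-- the edge has length `ll k` -/
theorem ll_sq (k : ℕ) :
    (fx (hh (k + 1)) - fx (hh k)) ^ 2 + (fy (hh (k + 1)) - fy (hh k)) ^ 2 = ll k ^ 2 := by
  unfold ll
  rw [fx_diff, fy_diff]
  have h1 := cs_one k
  have h2 : ss k = mm k * cc k := rfl
  have h3 : cc k ^ 2 * (1 + mm k ^ 2) = 1 := by rw [h2] at h1; linarith
  have e : cc k * (hh k / 400) + ss k * (mm k * (hh k / 400))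
      = (hh k / 400) * (cc k * (1 + mm k ^ 2)) := by rw [h2]; ring
  rw [e]
  have e2 : (cc k * (1 + mm k ^ 2)) ^ 2 = 1 + mm k ^ 2 := by
    have : (cc k * (1 + mm k ^ 2)) ^ 2 = (cc k ^ 2 * (1 + mm k ^ 2)) * (1 + mm k ^ 2) := by ring
    rw [this, h3, one_mul]
  rw [mul_pow (hh k / 400) (cc k * (1 + mm k ^ 2)) 2, e2]
  ring

theorem sum_hh (n : ℕ) : ∑ k ∈ Finset.range n, hh k = 2 - 2 * hh n := by
  induction n with
  | zero => simp [hh]
  | succ n ih =>
    rw [Finset.sum_range_succ, ih, hh_succ]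
    ring

theorem sum_ll_le (n : ℕ) : ∑ k ∈ Finset.range n, ll k ≤ 1 / 100 := by
  have h1 : ∑ k ∈ Finset.range n, ll k ≤ ∑ k ∈ Finset.range n, hh k / 200 :=
    Finset.sum_le_sum fun k _ => ll_le k
  rw [← Finset.sum_div, sum_hh] at h1
  have := hh_pos n
  linarith

theorem abel (c X : ℕ → ℝ) (n : ℕ) :
    c n * X (n + 1) + ∑ k ∈ Finset.range n, (c k - c (k + 1)) * X (k + 1) - c 0 * X 0
      = ∑ k ∈ Finset.range (n + 1), c k * (X (k + 1) - X k) := by
  induction n with
  | zero => simp; ring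
  | succ n ih =>
    rw [Finset.sum_range_succ _ (n + 1), ← ih, Finset.sum_range_succ]
    ring

theorem hh_zero : hh 0 = 1 := by simp [hh]

theorem total (n : ℕ) (t : Fin 2) :
    ∑ i : Lab n, (vx t i * ax i + vy t i * ay i)
      = 2 + 2 * √3 + ∑ k ∈ Finset.range (n + 1), ll k := by
  have h1 := abel cc (fun k => fx (hh k)) n
  have h2 := abel ss (fun k => fy (hh k)) n
  have h3 : ∑ k ∈ Finset.range (n + 1), ll k
      = ∑ k ∈ Finset.range (n + 1), cc k * (fx (hh (k + 1)) - fx (hh k))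
        + ∑ k ∈ Finset.range (n + 1), ss k * (fy (hh (k + 1)) - fy (hh k)) := by
    rw [← Finset.sum_add_distrib]
    rfl
  have e1 : fx (hh 0) = 1 := by rw [hh_zero]; simp [fx]
  have e2 : fy (hh 0) = 1 := by rw [hh_zero]; simp [fy]
  rw [h3, ← h1, ← h2, e1, e2, Fintype.sum_sum_type, Fintype.sum_option, Fintype.sum_prod_type]
  have h4 : ∑ k : Fin n, (vx (n := n) t (Sum.inl (some k)) * ax (n := n) (Sum.inl (some k))
      + vy (n := n) t (Sum.inl (some k)) * ay (n := n) (Sum.inl (some k)))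
      = ∑ k ∈ Finset.range n, (cc k - cc (k + 1)) * fx (hh (k + 1))
        + ∑ k ∈ Finset.range n, (ss k - ss (k + 1)) * fy (hh (k + 1)) := by
    rw [← Finset.sum_add_distrib, Finset.sum_range]
    rfl
  have h5 : vx (n := n) t (Sum.inl none) * ax (n := n) (Sum.inl none)
      + vy (n := n) t (Sum.inl none) * ay (n := n) (Sum.inl none)
      = cc n * fx (hh (n + 1)) + ss n * fy (hh (n + 1)) := rfl
  have h6 : ∑ j : Fin 4, ∑ t' : Fin 2, (vx (n := n) t (Sum.inr (j, t')) * ax (n := n) (Sum.inr (j, t'))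
      + vy (n := n) t (Sum.inr (j, t')) * ay (n := n) (Sum.inr (j, t')))
      = 2 + 2 * √3 - cc 0 - ss 0 := by
    simp only [Fin.sum_univ_four, Fin.sum_univ_two, vx, vy, dx, dy, ax, ay]
    fin_cases t <;> simp [tx, ty, sx, sy] <;> ring
  rw [h4, h5, h6]
  ring

theorem close {n : ℕ} (i : Lab n) : |ax i - sx (cl i)| ≤ 1 / 100 ∧ |ay i - sy (cl i)| ≤ 1 / 100 := by
  have hf : ∀ h : ℝ, 0 < h → h ≤ 1 → |fx h - 1| ≤ 1 / 100 ∧ |fy h - 1| ≤ 1 / 100 := by
    intro h h0 h1
    unfold fx fy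
    constructor <;> rw [abs_le] <;> constructor <;> nlinarith
  rcases i with (_ | k) | q
  · exact hf _ (hh_pos _) (hh_le _)
  · exact hf _ (hh_pos _) (hh_le _)
  · simp [ax, ay, cl]

/-- **The lower bound.** -/
theorem lower {W : Set E2} (n : ℕ) (hW : IsCompact W) (hc : IsConnected W)
    (hq : ∀ i : Lab n, ∃ q ∈ W, |q 0 - ax i| ≤ 1 / 100 ∧ |q 1 - ay i| ≤ 1 / 100 ∧
      0 ≤ dx i * (q 0 - ax i) + dy i * (q 1 - ay i)) :
    ENNReal.ofReal (2 + 2 * √3 + ∑ k ∈ Finset.range (n + 1), ll k) ≤ μH[1] W := by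
  choose q hqW h0 h1 h2 using hq
  by_contra hlt
  push Not at hlt
  have hfin : μH[1] W ≠ ∞ := ne_top_of_lt hlt
  set L := (μH[1] W).toReal with hL
  have hL0 : 0 ≤ L := ENNReal.toReal_nonneg
  have hLlt : L < 2 + 2 * √3 + ∑ k ∈ Finset.range (n + 1), ll k := by
    rw [hL]
    exact (ENNReal.lt_ofReal_iff_toReal_lt hfin).1 hlt
  obtain ⟨M, hM, _, hB⟩ := exists_laminar hW hc q hqW L hL0 (by rw [hL, ENNReal.ofReal_toReal hfin])
    ((2 + 2 * √3 + ∑ k ∈ Finset.range (n + 1), ll k - L) / 2) (by linarith)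
  have hlt2 : L + (2 + 2 * √3 + ∑ k ∈ Finset.range (n + 1), ll k - L) / 2 < 5.72 := by
    have h3 := sum_ll_le (n + 1)
    have h4 := sq3_hi
    linarith
  have hx : ∀ i, |q i 0 - sx (cl i)| ≤ 1 / 50 := by
    intro i
    have h3 := (close i).1
    have h4 := h0 i
    have e : q i 0 - sx (cl i) = (q i 0 - ax i) + (ax i - sx (cl i)) := by ring
    rw [e]
    exact (abs_add_le _ _).trans (by linarith)
  have hy : ∀ i, |q i 1 - sy (cl i)| ≤ 1 / 50 := by
    intro i
    have h3 := (close i).2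
    have h4 := h1 i
    have e : q i 1 - sy (cl i) = (q i 1 - ay i) + (ay i - sy (cl i)) := by ring
    rw [e]
    exact (abs_add_le _ _).trans (by linarith)
  obtain ⟨t, ht⟩ := exists_type hM fun A hA => classify hM hB hx hy hlt2 A hA
  have key := hB (lin (vx t) (vy t)) (fun A hA => lin_lipOn _ _ _ _ (ht A hA)) (by
    intro x _
    have h4 : ∑ i : Lab n, lin (vx t) (vy t) i x
        = (∑ i : Lab n, vx t i) * x 0 + (∑ i : Lab n, vy t i) * x 1 := by
      simp only [lin, Finset.sum_add_distrib, ← Finset.sum_mul]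
    rw [h4, (sum_all t).1, (sum_all t).2]
    ring)
  have h5 : ∑ i : Lab n, (vx t i * ax i + vy t i * ay i) ≤ ∑ i, lin (vx t) (vy t) i (q i) := by
    apply Finset.sum_le_sum
    intro i _
    have h6 := h2 i
    unfold lin
    rcases i with o | ⟨j, t'⟩
    · have e1 : vx (n := n) t (Sum.inl o) = dx (Sum.inl o) := rfl
      have e2 : vy (n := n) t (Sum.inl o) = dy (Sum.inl o) := rfl
      rw [e1, e2]
      nlinarith
    · by_cases htt : t' = t
      · have e1 : vx (n := n) t (Sum.inr (j, t')) = dx (n := n) (Sum.inr (j, t')) := if_pos htt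
        have e2 : vy (n := n) t (Sum.inr (j, t')) = dy (n := n) (Sum.inr (j, t')) := if_pos htt
        rw [e1, e2]
        nlinarith
      · have e1 : vx (n := n) t (Sum.inr (j, t')) = 0 := if_neg htt
        have e2 : vy (n := n) t (Sum.inr (j, t')) = 0 := if_neg htt
        rw [e1, e2]
        simp
  rw [total] at h5
  linarith

end Pool.Agent.TH629.Tree
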