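import Pool.Agent.Helper752.SquareLower

/-!
A convex polygonal chain with infinitely many vertices, starting at the corner `(1, 1)`, and the
direction vectors of its edges.
-/

set_option autoImplicit false

namespace Pool.Agent.TH629.Tree

/-- powers of one half -/
noncomputable def hh (k : ℕ) : ℝ := (1 / 2 : ℝ) ^ k

/-- the slopes of the edges -/
noncomputable def mm (k : ℕ) : ℝ := 1 / 5 + (1 / 20) * hh k

/-- first coordinate as a function of the parameter `h` -/
noncomputable def fx (h : ℝ) : ℝ := 1 + (1 / 200) * (1 - h)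

/-- second coordinate as a function of the parameter `h` -/
noncomputable def fy (h : ℝ) : ℝ := 1 + (1 / 400) * ((2 / 5) * (1 - h) + (1 / 15) * (1 - h ^ 2))

/-- first coordinate of the unit direction vector -/
noncomputable def cc (k : ℕ) : ℝ := 1 / √(1 + mm k ^ 2)

/-- second coordinate of the unit direction vector -/
noncomputable def ss (k : ℕ) : ℝ := mm k * cc k

theorem hh_pos (k : ℕ) : 0 < hh k := by unfold hh; positivity

theorem hh_le (k : ℕ) : hh k ≤ 1 := by
  unfold hh
  exact pow_le_one₀ (by norm_num) (by norm_num)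

theorem hh_succ (k : ℕ) : hh (k + 1) = hh k / 2 := by
  unfold hh
  rw [pow_succ]
  ring

theorem mm_lo (k : ℕ) : 1 / 5 < mm k := by
  have := hh_pos k
  unfold mm
  linarith

theorem mm_hi (k : ℕ) : mm k ≤ 1 / 4 := by
  have := hh_le k
  unfold mm
  linarith

theorem mm_succ (k : ℕ) : mm (k + 1) < mm k := by
  have := hh_pos k
  unfold mm
  rw [hh_succ]
  linarith

theorem sq_pos' (k : ℕ) : 0 < √(1 + mm k ^ 2) := by
  apply Real.sqrt_pos.2
  positivity

theorem cc_pos (k : ℕ) : 0 < cc k := by
  have := sq_pos' k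
  unfold cc
  positivity

theorem ss_pos (k : ℕ) : 0 < ss k := by
  have h1 := mm_lo k
  have h2 := cc_pos k
  unfold ss
  apply mul_pos _ h2
  linarith

theorem cs_one (k : ℕ) : cc k ^ 2 + ss k ^ 2 = 1 := by
  have h1 := sq_pos' k
  have h2 : √(1 + mm k ^ 2) ^ 2 = 1 + mm k ^ 2 := Real.sq_sqrt (by positivity)
  unfold ss cc
  field_simp
  rw [h2]

theorem four_ss (k : ℕ) : 4 * ss k ≤ cc k := by
  have h1 := mm_hi k
  have h2 := cc_pos k
  unfold ss
  nlinarith

theorem ss_hi (k : ℕ) : ss k ≤ 0.243 := by
  by_contra h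
  push Not at h
  have h1 := four_ss k
  have h2 := cs_one k
  nlinarith

theorem ss_lo (k : ℕ) : 0.196 ≤ ss k := by
  by_contra h
  push Not at h
  have h1 := cs_one k
  have h2 := ss_pos k
  have h3 := mm_lo k
  have h4 : cc k < 5 * ss k := by
    have := cc_pos k
    unfold ss
    nlinarith
  have h5 := cc_pos k
  nlinarith

theorem cc_lo (k : ℕ) : 0.97 ≤ cc k := by
  by_contra h
  push Not at h
  have h1 := cs_one k
  have h2 := ss_hi k
  have h3 := ss_pos k
  have h5 := cc_pos k
  nlinarith

theorem cc_hi (k : ℕ) : cc k ≤ 0.981 := by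
  by_contra h
  push Not at h
  have h1 := cs_one k
  have h2 := ss_lo k
  nlinarith

theorem cc_mono (k : ℕ) : cc k ≤ cc (k + 1) := by
  have h1 := sq_pos' (k + 1)
  unfold cc
  apply one_div_le_one_div_of_le h1
  apply Real.sqrt_le_sqrt
  have h2 := mm_succ k
  have h3 := mm_lo (k + 1)
  nlinarith

theorem ss_anti (k : ℕ) : ss (k + 1) ≤ ss k := by
  have h1 := cs_one k
  have h2 := cs_one (k + 1)
  have h3 := cc_mono k
  have h4 := cc_pos k
  have h5 := ss_pos k
  have h6 := ss_pos (k + 1)
  nlinarith

theorem cs_step (k : ℕ) : 4 * (cc (k + 1) - cc k) ≤ ss k - ss (k + 1) := by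
  have h1 := cs_one k
  have h2 := cs_one (k + 1)
  have h3 := cc_mono k
  have h4 := four_ss k
  have h5 := four_ss (k + 1)
  have h6 := ss_pos k
  have h7 := ss_pos (k + 1)
  have h8 : (ss k - ss (k + 1)) * (ss k + ss (k + 1)) = (cc (k + 1) - cc k) * (cc k + cc (k + 1)) := by
    linarith
  by_contra h
  push Not at h
  have h9 : (ss k - ss (k + 1)) * (ss k + ss (k + 1))
      < 4 * (cc (k + 1) - cc k) * (ss k + ss (k + 1)) := by
    apply mul_lt_mul_of_pos_right h
    linarith
  nlinarith

/-- the direction changes of a set of vertices -/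
noncomputable def VX (D : Finset ℕ) : ℝ := ∑ k ∈ D, (cc k - cc (k + 1))

/-- the direction changes of a set of vertices -/
noncomputable def VY (D : Finset ℕ) : ℝ := ∑ k ∈ D, (ss k - ss (k + 1))

theorem VX_nonpos (D : Finset ℕ) : VX D ≤ 0 := by
  unfold VX
  apply Finset.sum_nonpos
  intro k _
  linarith [cc_mono k]

theorem VY_nonneg (D : Finset ℕ) : 0 ≤ VY D := by
  unfold VY
  apply Finset.sum_nonneg
  intro k _
  linarith [ss_anti k]

theorem VXY (D : Finset ℕ) : -(4 * VX D) ≤ VY D := by
  unfold VX VY
  rw [Finset.mul_sum, ← Finset.sum_neg_distrib]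
  apply Finset.sum_le_sum
  intro k _
  linarith [cs_step k]

theorem VY_le (D : Finset ℕ) : VY D ≤ 1 / 20 := by
  obtain ⟨n, hn⟩ : ∃ n, D ⊆ Finset.range n := by
    obtain ⟨n, hn⟩ := D.exists_nat_subset_range
    exact ⟨n, hn⟩
  have h1 : VY D ≤ ∑ k ∈ Finset.range n, (ss k - ss (k + 1)) := by
    unfold VY
    apply Finset.sum_le_sum_of_subset_of_nonneg hn
    intro k _ _
    linarith [ss_anti k]
  rw [Finset.sum_range_sub'] at h1
  have h2 := ss_hi 0
  have h3 := ss_lo n
  linarith

/-- the final vertex together with some of the others -/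
theorem last_le (n : ℕ) : ∀ D : Finset ℕ, D ⊆ Finset.range n →
    (cc n + VX D) ^ 2 + (ss n + VY D) ^ 2 ≤ 1 := by
  induction n with
  | zero =>
    intro D hD
    have : D = ∅ := by
      rw [Finset.range_zero, Finset.subset_empty] at hD
      exact hD
    subst this
    have := cs_one 0
    simp only [VX, VY, Finset.sum_empty, add_zero]
    linarith
  | succ n ih =>
    intro D hD
    by_cases hn : n ∈ D
    · have h1 := ih (D.erase n) (by
        intro k hk
        rw [Finset.mem_erase] at hk
        have := hD hk.2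
        rw [Finset.mem_range] at this ⊢
        omega)
      have h2 : VX D = VX (D.erase n) + (cc n - cc (n + 1)) := by
        unfold VX
        rw [Finset.sum_erase_add _ _ hn]
      have h3 : VY D = VY (D.erase n) + (ss n - ss (n + 1)) := by
        unfold VY
        rw [Finset.sum_erase_add _ _ hn]
      rw [h2, h3]
      have e1 : cc (n + 1) + (VX (D.erase n) + (cc n - cc (n + 1))) = cc n + VX (D.erase n) := by
        ring
      have e2 : ss (n + 1) + (VY (D.erase n) + (ss n - ss (n + 1))) = ss n + VY (D.erase n) := by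
        ring
      rw [e1, e2]
      exact h1
    · have h1 := ih D (by
        intro k hk
        have := hD hk
        rw [Finset.mem_range] at this ⊢
        have : k ≠ n := fun h => hn (h ▸ hk)
        omega)
      have h2 := cs_one n
      have h3 := cs_one (n + 1)
      have h4 := VX_nonpos D
      have h5 := VY_nonneg D
      have h6 := cc_mono n
      have h7 := ss_anti n
      nlinarith [mul_nonneg (neg_nonneg.2 h4) (sub_nonneg.2 h6), mul_nonneg h5 (sub_nonneg.2 h7)]

end Pool.Agent.TH629.Tree
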