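import Pool.Agent.TH629.Tree.Chain

/-!
Labels, potentials and their sums over sets of labels.
-/

set_option autoImplicit false

namespace Pool.Agent.TH629.Tree

/-- signs of the corners -/
def sx : Fin 4 → ℝ := ![1, -1, -1, 1]

/-- signs of the corners -/
def sy : Fin 4 → ℝ := ![1, 1, -1, -1]

/-- end directions of the two Steiner trees of the square -/
noncomputable def tx (t : Fin 2) (j : Fin 4) : ℝ := if t = 0 then sx j / 2 else sx j * √3 / 2

/-- end directions of the two Steiner trees of the square -/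
noncomputable def ty (t : Fin 2) (j : Fin 4) : ℝ := if t = 0 then sy j * √3 / 2 else sy j / 2

/-- the labels: vertices of the chain, and two labels for each corner -/
abbrev Lab (n : ℕ) : Type := Option (Fin n) ⊕ (Fin 4 × Fin 2)

/-- the corner close to the label -/
def cl {n : ℕ} : Lab n → Fin 4
  | Sum.inl _ => 0
  | Sum.inr q => q.1

/-- direction of a label -/
noncomputable def dx {n : ℕ} : Lab n → ℝ
  | Sum.inl none => cc n
  | Sum.inl (some k) => cc k - cc (k + 1)
  | Sum.inr q => tx q.2 q.1 - if q.1 = 0 then cc 0 else 0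

/-- direction of a label -/
noncomputable def dy {n : ℕ} : Lab n → ℝ
  | Sum.inl none => ss n
  | Sum.inl (some k) => ss k - ss (k + 1)
  | Sum.inr q => ty q.2 q.1 - if q.1 = 0 then ss 0 else 0

/-- position of a label -/
noncomputable def ax {n : ℕ} : Lab n → ℝ
  | Sum.inl none => fx (hh (n + 1))
  | Sum.inl (some k) => fx (hh (k + 1))
  | Sum.inr q => sx q.1

/-- position of a label -/
noncomputable def ay {n : ℕ} : Lab n → ℝ
  | Sum.inl none => fy (hh (n + 1))
  | Sum.inl (some k) => fy (hh (k + 1))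
  | Sum.inr q => sy q.1

/-- coefficients of the potentials of type `t` -/
noncomputable def vx {n : ℕ} (t : Fin 2) : Lab n → ℝ
  | Sum.inl o => dx (Sum.inl o)
  | Sum.inr q => if q.2 = t then dx (n := n) (Sum.inr q) else 0

/-- coefficients of the potentials of type `t` -/
noncomputable def vy {n : ℕ} (t : Fin 2) : Lab n → ℝ
  | Sum.inl o => dy (Sum.inl o)
  | Sum.inr q => if q.2 = t then dy (n := n) (Sum.inr q) else 0

/-- the inner vertices of the chain in a set of labels -/
def ch {n : ℕ} (D : Finset (Lab n)) : Finset ℕ :=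
  (Finset.univ.filter fun k : Fin n => (Sum.inl (some k) : Lab n) ∈ D).map Fin.valEmbedding

theorem ch_sub {n : ℕ} (D : Finset (Lab n)) : ch D ⊆ Finset.range n := by
  intro k hk
  simp only [ch, Finset.mem_map, Finset.mem_filter, Finset.mem_univ, true_and,
    Fin.valEmbedding_apply] at hk
  obtain ⟨a, _, rfl⟩ := hk
  exact Finset.mem_range.2 a.2

theorem sum_lab {n : ℕ} (f : Lab n → ℝ) (D : Finset (Lab n)) :
    ∑ i ∈ D, f i = (if (Sum.inl none : Lab n) ∈ D then f (Sum.inl none) else 0)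
      + (∑ k : Fin n, if (Sum.inl (some k) : Lab n) ∈ D then f (Sum.inl (some k)) else 0)
      + ∑ j : Fin 4, ∑ t : Fin 2,
        if (Sum.inr (j, t) : Lab n) ∈ D then f (Sum.inr (j, t)) else 0 := by
  have h1 : ∑ i ∈ D, f i = ∑ i : Lab n, if i ∈ D then f i else 0 := by
    rw [Finset.sum_ite_mem, Finset.univ_inter]
  rw [h1, Fintype.sum_sum_type, Fintype.sum_option, Fintype.sum_prod_type]

theorem sum_vx {n : ℕ} (t : Fin 2) (D : Finset (Lab n)) :
    ∑ i ∈ D, vx t i = (if (Sum.inl none : Lab n) ∈ D then cc n else 0) + VX (ch D)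
      + ∑ j : Fin 4, if (Sum.inr (j, t) : Lab n) ∈ D then tx t j - (if j = 0 then cc 0 else 0)
        else 0 := by
  rw [sum_lab]
  congr 1
  · congr 1
    unfold VX ch
    rw [Finset.sum_map, Finset.sum_filter]
    rfl
  · refine Finset.sum_congr rfl fun j _ => ?_
    rw [Fin.sum_univ_two]
    fin_cases t <;> simp [vx, dx]

theorem sum_vy {n : ℕ} (t : Fin 2) (D : Finset (Lab n)) :
    ∑ i ∈ D, vy t i = (if (Sum.inl none : Lab n) ∈ D then ss n else 0) + VY (ch D)
      + ∑ j : Fin 4, if (Sum.inr (j, t) : Lab n) ∈ D then ty t j - (if j = 0 then ss 0 else 0)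
        else 0 := by
  rw [sum_lab]
  congr 1
  · congr 1
    unfold VY ch
    rw [Finset.sum_map, Finset.sum_filter]
    rfl
  · refine Finset.sum_congr rfl fun j _ => ?_
    rw [Fin.sum_univ_two]
    fin_cases t <;> simp [vy, dy]

theorem sq3 : √3 ^ 2 = 3 := Real.sq_sqrt (by norm_num)

theorem sq3_lo : 1.732 < √3 := by
  rw [Real.lt_sqrt (by norm_num)]; norm_num

theorem sq3_hi : √3 < 1.7321 := by
  rw [Real.sqrt_lt' (by norm_num)]; norm_num

theorem txy (t : Fin 2) (j : Fin 4) : tx t j ^ 2 + ty t j ^ 2 = 1 := by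
  have h := sq3
  fin_cases t <;> fin_cases j <;> simp [tx, ty, sx, sy] <;> nlinarith

theorem VX_compl {n : ℕ} {D : Finset ℕ} (hD : D ⊆ Finset.range n) :
    VX D = cc 0 - cc n - VX (Finset.range n \ D) := by
  have h1 := Finset.sum_sdiff (f := fun k => cc k - cc (k + 1)) hD
  rw [Finset.sum_range_sub'] at h1
  unfold VX
  linarith

theorem VY_compl {n : ℕ} {D : Finset ℕ} (hD : D ⊆ Finset.range n) :
    VY D = ss 0 - ss n - VY (Finset.range n \ D) := by
  have h1 := Finset.sum_sdiff (f := fun k => ss k - ss (k + 1)) hD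
  rw [Finset.sum_range_sub'] at h1
  unfold VY
  linarith

/-- a set of labels close to one corner -/
theorem cluster {n : ℕ} (t : Fin 2) (D : Finset (Lab n)) (j : Fin 4) (hD : ∀ i ∈ D, cl i = j) :
    (∑ i ∈ D, vx t i) ^ 2 + (∑ i ∈ D, vy t i) ^ 2 ≤ 1 := by
  rw [sum_vx, sum_vy]
  have hr : ∀ k : Fin 4, k ≠ j → (Sum.inr (k, t) : Lab n) ∉ D := fun k hk h => hk (hD _ h)
  have e1 : (∑ k : Fin 4, if (Sum.inr (k, t) : Lab n) ∈ D then tx t k - (if k = 0 then cc 0 else 0)
      else 0) = if (Sum.inr (j, t) : Lab n) ∈ D then tx t j - (if j = 0 then cc 0 else 0) else 0 :=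
    Finset.sum_eq_single j (fun k _ hk => if_neg (hr k hk)) fun h => absurd (Finset.mem_univ _) h
  have e2 : (∑ k : Fin 4, if (Sum.inr (k, t) : Lab n) ∈ D then ty t k - (if k = 0 then ss 0 else 0)
      else 0) = if (Sum.inr (j, t) : Lab n) ∈ D then ty t j - (if j = 0 then ss 0 else 0) else 0 :=
    Finset.sum_eq_single j (fun k _ hk => if_neg (hr k hk)) fun h => absurd (Finset.mem_univ _) h
  rw [e1, e2]
  by_cases hj : j = 0
  · subst hj
    simp only [if_true]
    have hV1 := VX_nonpos (ch D)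
    have hV2 := VY_nonneg (ch D)
    have hV3 := VXY (ch D)
    have hV4 := VY_le (ch D)
    have hs := sq3
    have hs1 := sq3_lo
    have hs2 := sq3_hi
    have hc0 := cc_lo 0
    have hc1 := cc_hi 0
    have hd0 := ss_lo 0
    have hd1 := ss_hi 0
    by_cases h1 : (Sum.inl none : Lab n) ∈ D <;> by_cases h2 : (Sum.inr (0, t) : Lab n) ∈ D
    · rw [if_pos h1, if_pos h1, if_pos h2, if_pos h2, VX_compl (ch_sub D), VY_compl (ch_sub D)]
      set X := -VX (Finset.range n \ ch D) with hX
      set Y := VY (Finset.range n \ ch D) with hY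
      have g1 : 0 ≤ X := by rw [hX]; linarith [VX_nonpos (Finset.range n \ ch D)]
      have g2 : 0 ≤ Y := VY_nonneg _
      have g3 : 4 * X ≤ Y := by rw [hX]; linarith [VXY (Finset.range n \ ch D)]
      have g4 : Y ≤ 1 / 20 := VY_le _
      have e3 : cc n + (cc 0 - cc n - VX (Finset.range n \ ch D)) + (tx t 0 - cc 0) = tx t 0 + X := by
        rw [hX]; ring
      have e4 : ss n + (ss 0 - ss n - Y) + (ty t 0 - ss 0) = ty t 0 - Y := by ring
      rw [e3, e4]
      have g5 := txy t 0
      have g6 : 2 * tx t 0 * X + X ^ 2 + Y ^ 2 ≤ 2 * ty t 0 * Y := by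
        have g7 : X ^ 2 + Y ^ 2 ≤ (1 / 10) * Y := by nlinarith
        fin_cases t
        · simp [tx, ty, sx, sy]
          nlinarith
        · simp [tx, ty, sx, sy]
          nlinarith
      nlinarith
    · rw [if_pos h1, if_pos h1, if_neg h2, if_neg h2, add_zero, add_zero]
      exact last_le n _ (ch_sub D)
    · rw [if_neg h1, if_neg h1, if_pos h2, if_pos h2, zero_add, zero_add]
      fin_cases t
      · simp [tx, ty, sx, sy]
        nlinarith
      · simp [tx, ty, sx, sy]
        nlinarith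
    · rw [if_neg h1, if_neg h1, if_neg h2, if_neg h2]
      nlinarith
  · have h1 : (Sum.inl none : Lab n) ∉ D := fun h => hj (hD _ h).symm
    have h2 : ch D = ∅ := by
      unfold ch
      rw [Finset.map_eq_empty, Finset.filter_eq_empty_iff]
      intro k _ h
      exact hj (hD _ h).symm
    rw [h2, if_neg h1, if_neg h1, if_neg hj, if_neg hj]
    simp only [VX, VY, Finset.sum_empty, sub_zero, zero_add]
    have := txy t j
    split_ifs
    · linarith
    · norm_num

/-- the sum of all coefficients -/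
theorem sum_all {n : ℕ} (t : Fin 2) :
    ∑ i : Lab n, vx t i = 0 ∧ ∑ i : Lab n, vy t i = 0 := by
  have hch : ch (Finset.univ : Finset (Lab n)) = Finset.range n := by
    apply Finset.Subset.antisymm (ch_sub _)
    intro k hk
    rw [Finset.mem_range] at hk
    simp only [ch, Finset.mem_map, Finset.mem_filter, Finset.mem_univ, true_and,
      Fin.valEmbedding_apply]
    exact ⟨⟨k, hk⟩, rfl⟩
  rw [sum_vx, sum_vy, hch]
  simp only [Finset.mem_univ, if_true, VX, VY, Finset.sum_range_sub', Fin.sum_univ_four]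
  fin_cases t <;> simp [tx, ty, sx, sy] <;> constructor <;> ring

/-- the union of two classes -/
theorem two_classes {n : ℕ} (t : Fin 2) (A : Finset (Lab n)) (j j' : Fin 4) (hj : j ≠ j')
    (hA : ∀ i, i ∈ A ↔ (cl i = j ∨ cl i = j')) :
    ∑ i ∈ A, vx t i = tx t j + tx t j' ∧ ∑ i ∈ A, vy t i = ty t j + ty t j' := by
  have e1 : ∀ k : Fin 4, (Sum.inr (k, t) : Lab n) ∈ A ↔ (k = j ∨ k = j') := fun k => hA _
  have e2 : (Sum.inl none : Lab n) ∈ A ↔ (0 = j ∨ 0 = j') := hA _
  have hch : ch A = if (0 = j ∨ 0 = j') then Finset.range n else ∅ := by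
    split_ifs with h
    · apply Finset.Subset.antisymm (ch_sub _)
      intro k hk
      rw [Finset.mem_range] at hk
      simp only [ch, Finset.mem_map, Finset.mem_filter, Finset.mem_univ, true_and,
        Fin.valEmbedding_apply]
      exact ⟨⟨k, hk⟩, (hA _).2 h, rfl⟩
    · unfold ch
      rw [Finset.map_eq_empty, Finset.filter_eq_empty_iff]
      intro k _ h'
      exact h ((hA _).1 h')
  have hV : VX (ch A) = (if (0 = j ∨ 0 = j') then cc 0 - cc n else 0) ∧
      VY (ch A) = (if (0 = j ∨ 0 = j') then ss 0 - ss n else 0) := by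
    rw [hch]
    split_ifs
    · simp only [VX, VY, Finset.sum_range_sub']
      exact ⟨trivial, trivial⟩
    · simp [VX, VY]
  rw [sum_vx, sum_vy, hV.1, hV.2]
  simp only [e1, e2, Fin.sum_univ_four]
  clear hV hch e1 e2 hA
  revert hj
  fin_cases j <;> fin_cases j' <;> intro hj <;>
    first
    | exact absurd rfl hj
    | (constructor <;> simp <;> ring)

/-- the sign of the first coordinate, as a number `0` or `1` -/
def xb : Fin 4 → Fin 2 := ![0, 1, 1, 0]

/-- the sign of the second coordinate, as a number `0` or `1` -/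
def yb : Fin 4 → Fin 2 := ![0, 0, 1, 1]

/-- allowed pairs of classes -/
def Allowed (t : Fin 2) (j j' : Fin 4) : Prop := if t = 0 then yb j ≠ yb j' else xb j ≠ xb j'

theorem two_le (t : Fin 2) (j j' : Fin 4) (h : Allowed t j j') :
    (tx t j + tx t j') ^ 2 + (ty t j + ty t j') ^ 2 ≤ 1 := by
  revert h
  fin_cases t <;> fin_cases j <;> fin_cases j' <;> simp [Allowed, xb, yb, tx, ty, sx, sy, neg_div] <;>
    norm_num

/-- the potentials are admissible for good sets of labels -/
theorem good_le {n : ℕ} (t : Fin 2) (A : Finset (Lab n))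
    (h : (∃ j, ∀ i ∈ A, cl i = j) ∨ (∃ j, ∀ i, i ∉ A → cl i = j) ∨
      ∃ j j', j ≠ j' ∧ Allowed t j j' ∧ ∀ i, i ∈ A ↔ (cl i = j ∨ cl i = j')) :
    (∑ i ∈ A, vx t i) ^ 2 + (∑ i ∈ A, vy t i) ^ 2 ≤ 1 := by
  rcases h with ⟨j, hj⟩ | ⟨j, hj⟩ | ⟨j, j', hjj, ha, hA⟩
  · exact cluster t A j hj
  · have h1 := cluster t Aᶜ j (fun i hi => hj i (Finset.mem_compl.1 hi))
    have h2 := Finset.sum_add_sum_compl A (vx (n := n) t)
    have h3 := Finset.sum_add_sum_compl A (vy (n := n) t)
    rw [(sum_all t).1] at h2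
    rw [(sum_all t).2] at h3
    have e2 : ∑ i ∈ A, vx t i = -∑ i ∈ Aᶜ, vx t i := by linarith
    have e3 : ∑ i ∈ A, vy t i = -∑ i ∈ Aᶜ, vy t i := by linarith
    rw [e2, e3]
    nlinarith
  · obtain ⟨h1, h2⟩ := two_classes t A j j' hjj hA
    rw [h1, h2]
    exact two_le t j j' ha

end Pool.Agent.TH629.Tree
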