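import Pool.Agent.TH629.Tree.Labels

/-!
The lower bound for the length of connected sets.
-/

set_option autoImplicit false

namespace Pool.Agent.TH629.Tree

open scoped ENNReal NNReal
open MeasureTheory Metric Pool.Agent.Helper752

/-- A pair and a triple of labels which are not mixed by the laminar family. -/
theorem gapG {ι : Type*} [Fintype ι] [DecidableEq ι] {K : Set E2} {p : ι → E2} {B : ℝ}
    {M : Set (Finset ι)}
    (hB : ∀ φ : ι → E2 → ℝ, (∀ A ∈ M, LipOn K φ A) → (∀ x ∈ K, ∑ i, φ i x = 0) →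
      ∑ i, φ i (p i) ≤ B)
    (a b c d e : ι)
    (hs : ∀ A ∈ M, (c ∉ A ∧ d ∉ A ∧ e ∉ A) ∨ (a ∉ A ∧ b ∉ A) ∨ (a ∈ A ∧ b ∈ A) ∨
      (c ∈ A ∧ d ∈ A ∧ e ∈ A))
    (gx gy cx cy dx dy ex ey : ℝ)
    (hg : gx ^ 2 + gy ^ 2 ≤ 1) (h1 : cx ^ 2 + cy ^ 2 ≤ 1) (h2 : dx ^ 2 + dy ^ 2 ≤ 1)
    (h3 : ex ^ 2 + ey ^ 2 ≤ 1) (hsx : cx + dx + ex = 0) (hsy : cy + dy + ey = 0) :
    gx * (p a 0 - p b 0) + gy * (p a 1 - p b 1) + (cx * p c 0 + cy * p c 1)
      + (dx * p d 0 + dy * p d 1) + (ex * p e 0 + ey * p e 1) ≤ B := by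
  let X : ι → ℝ := fun i => (if i = a then gx else 0) + (if i = b then -gx else 0)
    + (if i = c then cx else 0) + (if i = d then dx else 0) + (if i = e then ex else 0)
  let Y : ι → ℝ := fun i => (if i = a then gy else 0) + (if i = b then -gy else 0)
    + (if i = c then cy else 0) + (if i = d then dy else 0) + (if i = e then ey else 0)
  have hX : ∀ A : Finset ι, ∑ i ∈ A, X i = (if a ∈ A then gx else 0) + (if b ∈ A then -gx else 0)
    + (if c ∈ A then cx else 0) + (if d ∈ A then dx else 0) + (if e ∈ A then ex else 0) := by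
    intro A
    simp only [X, Finset.sum_add_distrib, Finset.sum_ite_eq']
  have hY : ∀ A : Finset ι, ∑ i ∈ A, Y i = (if a ∈ A then gy else 0) + (if b ∈ A then -gy else 0)
    + (if c ∈ A then cy else 0) + (if d ∈ A then dy else 0) + (if e ∈ A then ey else 0) := by
    intro A
    simp only [Y, Finset.sum_add_distrib, Finset.sum_ite_eq']
  have e1 : ex = -(cx + dx) := by linarith
  have e2 : ey = -(cy + dy) := by linarith
  have key := hB (lin X Y) ?_ ?_
  · have hval : ∑ i, lin X Y i (p i) = gx * (p a 0 - p b 0) + gy * (p a 1 - p b 1)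
        + (cx * p c 0 + cy * p c 1) + (dx * p d 0 + dy * p d 1) + (ex * p e 0 + ey * p e 1) := by
      simp only [lin, X, Y, add_mul, ite_mul, zero_mul, Finset.sum_add_distrib,
        Finset.sum_ite_eq', Finset.mem_univ, if_true]
      ring
    rw [hval] at key
    exact key
  · intro A hA
    apply lin_lipOn
    rw [hX, hY]
    subst e1 e2
    rcases hs A hA with ⟨h4, h5, h6⟩ | ⟨h4, h5⟩ | ⟨h4, h5⟩ | ⟨h4, h5, h6⟩
    · rw [if_neg h4, if_neg h5, if_neg h6, if_neg h4, if_neg h5, if_neg h6]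
      split_ifs <;> nlinarith
    · rw [if_neg h4, if_neg h5, if_neg h4, if_neg h5]
      split_ifs <;> nlinarith
    · rw [if_pos h4, if_pos h5, if_pos h4, if_pos h5]
      split_ifs <;> nlinarith
    · rw [if_pos h4, if_pos h5, if_pos h6, if_pos h4, if_pos h5, if_pos h6]
      split_ifs <;> nlinarith
  · intro x _
    have h4 : ∑ i, lin X Y i x = (∑ i, X i) * x 0 + (∑ i, Y i) * x 1 := by
      simp only [lin, Finset.sum_add_distrib, ← Finset.sum_mul]
    rw [h4, hX, hY]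
    simp only [Finset.mem_univ, if_true]
    subst e1 e2
    ring

/-- two labels at different corners -/
theorem pair_far {n : ℕ} {p : Lab n → E2} (hx : ∀ i, |p i 0 - sx (cl i)| ≤ 1 / 50)
    (hy : ∀ i, |p i 1 - sy (cl i)| ≤ 1 / 50) (a b : Lab n) (hab : cl a ≠ cl b) :
    ∃ gx gy : ℝ, gx ^ 2 + gy ^ 2 ≤ 1 ∧
      1.96 ≤ gx * (p a 0 - p b 0) + gy * (p a 1 - p b 1) := by
  have a0 := abs_le.1 (hx a)
  have a1 := abs_le.1 (hy a)
  have b0 := abs_le.1 (hx b)
  have b1 := abs_le.1 (hy b)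
  generalize cl a = j at *
  generalize cl b = j' at *
  revert hab
  fin_cases j <;> fin_cases j' <;> simp [sx, sy] at a0 a1 b0 b1 <;> intro hab <;>
    first
    | exact absurd rfl hab
    | exact ⟨1, 0, by norm_num, by linarith⟩
    | exact ⟨-1, 0, by norm_num, by linarith⟩
    | exact ⟨0, 1, by norm_num, by linarith⟩
    | exact ⟨0, -1, by norm_num, by linarith⟩

/-- The bound in the presence of a pair and a triple which are not mixed. -/
theorem bad_bound {n : ℕ} {K : Set E2} {p : Lab n → E2} {B : ℝ} {M : Set (Finset (Lab n))}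
    (hB : ∀ φ : Lab n → E2 → ℝ, (∀ A ∈ M, LipOn K φ A) → (∀ x ∈ K, ∑ i, φ i x = 0) →
      ∑ i, φ i (p i) ≤ B)
    (hx : ∀ i, |p i 0 - sx (cl i)| ≤ 1 / 50) (hy : ∀ i, |p i 1 - sy (cl i)| ≤ 1 / 50)
    (a b : Lab n) (hab : cl a ≠ cl b) (m : Fin 4) (L : Fin 4 → Lab n)
    (hL : ∀ j, j ≠ m → cl (L j) = j)
    (hs : ∀ A ∈ M, (∀ j, j ≠ m → L j ∉ A) ∨ (a ∉ A ∧ b ∉ A) ∨ (a ∈ A ∧ b ∈ A) ∨
      (∀ j, j ≠ m → L j ∈ A)) : 5.72 ≤ B := by
  obtain ⟨gx, gy, hg, hgv⟩ := pair_far hx hy a b hab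
  have key : ∀ c d e : Fin 4, c ≠ m → d ≠ m → e ≠ m → ∀ cx cy dx dy ex ey : ℝ,
      cx ^ 2 + cy ^ 2 ≤ 1 → dx ^ 2 + dy ^ 2 ≤ 1 → ex ^ 2 + ey ^ 2 ≤ 1 → cx + dx + ex = 0 →
      cy + dy + ey = 0 → 1.96 + (cx * p (L c) 0 + cy * p (L c) 1)
      + (dx * p (L d) 0 + dy * p (L d) 1) + (ex * p (L e) 0 + ey * p (L e) 1) ≤ B := by
    intro c d e hc hd he cx cy dx dy ex ey h1 h2 h3 h4 h5
    have := gapG hB a b (L c) (L d) (L e) (fun A hA => by
      rcases hs A hA with h | h | h | h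
      · exact Or.inl ⟨h c hc, h d hd, h e he⟩
      · exact Or.inr (Or.inl h)
      · exact Or.inr (Or.inr (Or.inl h))
      · exact Or.inr (Or.inr (Or.inr ⟨h c hc, h d hd, h e he⟩))) gx gy cx cy dx dy ex ey hg h1 h2 h3
      h4 h5
    linarith
  have hLx : ∀ j, j ≠ m → |p (L j) 0 - sx j| ≤ 1 / 50 := fun j hj => by
    have := hx (L j)
    rwa [hL j hj] at this
  have hLy : ∀ j, j ≠ m → |p (L j) 1 - sy j| ≤ 1 / 50 := fun j hj => by
    have := hy (L j)
    rwa [hL j hj] at this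
  clear hs hL hB hx hy
  have fin : ∀ c d e : Fin 4, c ≠ m → d ≠ m → e ≠ m → sx c = -sx m → sy c = -sy m →
      sx d = sx m → sy d = -sy m → sx e = -sx m → sy e = sy m → 5.72 ≤ B := by
    intro c d e hc hd he k1 k2 k3 k4 k5 k6
    have hxm : sx m = 1 ∨ sx m = -1 := by fin_cases m <;> simp [sx]
    have hym : sy m = 1 ∨ sy m = -1 := by fin_cases m <;> simp [sy]
    have c0 := abs_le.1 (hLx c hc)
    have c1 := abs_le.1 (hLy c hc)
    have d0 := abs_le.1 (hLx d hd)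
    have d1 := abs_le.1 (hLy d hd)
    have e0 := abs_le.1 (hLx e he)
    have e1 := abs_le.1 (hLy e he)
    have := key c d e hc hd he (-0.68 * sx m) (-0.68 * sy m) (0.96 * sx m) (-0.28 * sy m)
      (-0.28 * sx m) (0.96 * sy m)
      (by rcases hxm with h | h <;> rcases hym with h' | h' <;> rw [h, h'] <;> norm_num)
      (by rcases hxm with h | h <;> rcases hym with h' | h' <;> rw [h, h'] <;> norm_num)
      (by rcases hxm with h | h <;> rcases hym with h' | h' <;> rw [h, h'] <;> norm_num)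
      (by ring) (by ring)
    rw [k1] at c0
    rw [k2] at c1
    rw [k3] at d0
    rw [k4] at d1
    rw [k5] at e0
    rw [k6] at e1
    rcases hxm with h | h <;> rcases hym with h' | h' <;> rw [h] at c0 d0 e0 this <;>
      rw [h'] at c1 d1 e1 this <;> linarith
  fin_cases m
  · exact fin 2 3 1 (by decide) (by decide) (by decide) (by simp [sx]) (by simp [sy])
      (by simp [sx]) (by simp [sy]) (by simp [sx]) (by simp [sy])
  · exact fin 3 2 0 (by decide) (by decide) (by decide) (by simp [sx]) (by simp [sy])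
      (by simp [sx]) (by simp [sy]) (by simp [sx]) (by simp [sy])
  · exact fin 0 1 3 (by decide) (by decide) (by decide) (by simp [sx]) (by simp [sy])
      (by simp [sx]) (by simp [sy]) (by simp [sx]) (by simp [sy])
  · exact fin 1 0 2 (by decide) (by decide) (by decide) (by simp [sx]) (by simp [sy])
      (by simp [sx]) (by simp [sy]) (by simp [sx]) (by simp [sy])

/-- Either the bound of `bad_bound` applies, or the set of labels is good. -/
theorem classify {n : ℕ} {K : Set E2} {p : Lab n → E2} {B : ℝ} {M : Set (Finset (Lab n))}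
    (hM : Laminar M)
    (hB : ∀ φ : Lab n → E2 → ℝ, (∀ A ∈ M, LipOn K φ A) → (∀ x ∈ K, ∑ i, φ i x = 0) →
      ∑ i, φ i (p i) ≤ B)
    (hx : ∀ i, |p i 0 - sx (cl i)| ≤ 1 / 50) (hy : ∀ i, |p i 1 - sy (cl i)| ≤ 1 / 50)
    (hlt : B < 5.72) (W : Finset (Lab n)) (hW : W ∈ M) :
    (∃ j, ∀ i ∈ W, cl i = j) ∨ (∃ j, ∀ i, i ∉ W → cl i = j) ∨
      ∃ j j', j ≠ j' ∧ ∀ i, i ∈ W ↔ (cl i = j ∨ cl i = j') := by
  by_cases h1 : ∃ j, ∀ i ∈ W, cl i = j
  · exact Or.inl h1
  by_cases h2 : ∃ j, ∀ i, i ∉ W → cl i = j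
  · exact Or.inr (Or.inl h2)
  right; right
  push Not at h1 h2
  -- two labels in `W` at different corners
  obtain ⟨a, ha, -⟩ := h1 0
  obtain ⟨b, hb, hba⟩ := h1 (cl a)
  obtain ⟨a', ha', -⟩ := h2 0
  obtain ⟨b', hb', hba'⟩ := h2 (cl a')
  have hF : ∀ m : Fin 4, ∃ j, j ≠ m ∧ ∀ i, cl i = j → i ∈ W := by
    intro m
    by_contra hcon
    push Not at hcon
    choose! L hL1 hL2 using hcon
    have := bad_bound hB hx hy a b (Ne.symm hba) m L (fun j hj => hL1 j hj) (by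
      intro A hA
      rcases hM A hA W hW with h | h | h
      · left
        intro j hj h'
        exact hL2 j hj (h h')
      · right; right; left
        exact ⟨h ha, h hb⟩
      · right; left
        exact ⟨fun h' => Finset.disjoint_left.1 h h' ha, fun h' => Finset.disjoint_left.1 h h' hb⟩)
    linarith
  have hG : ∀ m : Fin 4, ∃ j, j ≠ m ∧ ∀ i, cl i = j → i ∉ W := by
    intro m
    by_contra hcon
    push Not at hcon
    choose! L hL1 hL2 using hcon
    have := bad_bound hB hx hy a' b' (Ne.symm hba') m L (fun j hj => hL1 j hj) (by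
      intro A hA
      rcases hM A hA W hW with h | h | h
      · right; left
        exact ⟨fun h' => ha' (h h'), fun h' => hb' (h h')⟩
      · right; right; right
        intro j hj
        exact h (hL2 j hj)
      · left
        intro j hj h'
        exact Finset.disjoint_left.1 h h' (hL2 j hj))
    linarith
  obtain ⟨j1, -, hj1⟩ := hF 0
  obtain ⟨j2, hj12, hj2⟩ := hF j1
  obtain ⟨g1, -, hg1⟩ := hG 0
  obtain ⟨g2, hg12, hg2⟩ := hG g1
  have hne : ∀ j g : Fin 4, (∀ i : Lab n, cl i = j → i ∈ W) → (∀ i : Lab n, cl i = g → i ∉ W) →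
      j ≠ g := by
    intro j g hj hg h
    exact hg (Sum.inr (g, 0)) rfl (hj (Sum.inr (g, 0)) h.symm)
  have n1 := hne j1 g1 hj1 hg1
  have n2 := hne j1 g2 hj1 hg2
  have n3 := hne j2 g1 hj2 hg1
  have n4 := hne j2 g2 hj2 hg2
  have hall : ∀ j : Fin 4, j = j1 ∨ j = j2 ∨ j = g1 ∨ j = g2 := by
    have : ∀ j1 j2 g1 g2 : Fin 4, j2 ≠ j1 → g2 ≠ g1 → j1 ≠ g1 → j1 ≠ g2 → j2 ≠ g1 → j2 ≠ g2 →
        ∀ j : Fin 4, j = j1 ∨ j = j2 ∨ j = g1 ∨ j = g2 := by decide
    exact this j1 j2 g1 g2 hj12 hg12 n1 n2 n3 n4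
  refine ⟨j1, j2, Ne.symm hj12, fun i => ⟨fun hi => ?_, fun hi => ?_⟩⟩
  · rcases hall (cl i) with h | h | h | h
    · exact Or.inl h
    · exact Or.inr h
    · exact absurd hi (hg1 i h)
    · exact absurd hi (hg2 i h)
  · rcases hi with h | h
    · exact hj1 i h
    · exact hj2 i h

/-- One of the two types of potentials is admissible for all sets of the family. -/
theorem exists_type {n : ℕ} {M : Set (Finset (Lab n))} (hM : Laminar M)
    (h : ∀ W ∈ M, (∃ j, ∀ i ∈ W, cl i = j) ∨ (∃ j, ∀ i, i ∉ W → cl i = j) ∨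
      ∃ j j', j ≠ j' ∧ ∀ i, i ∈ W ↔ (cl i = j ∨ cl i = j')) :
    ∃ t : Fin 2, ∀ W ∈ M, (∑ i ∈ W, vx t i) ^ 2 + (∑ i ∈ W, vy t i) ^ 2 ≤ 1 := by
  by_cases h0 : ∃ S ∈ M, ∃ j j', j ≠ j' ∧ yb j = yb j' ∧ ∀ i, i ∈ S ↔ (cl i = j ∨ cl i = j')
  · obtain ⟨S, hS, k, k', hk, hyk, hSk⟩ := h0
    refine ⟨1, fun W hW => good_le 1 W ?_⟩
    rcases h W hW with h1 | h1 | ⟨j, j', hj, hWj⟩
    · exact Or.inl h1
    · exact Or.inr (Or.inl h1)
    · refine Or.inr (Or.inr ⟨j, j', hj, ?_, hWj⟩)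
      show (if (1 : Fin 2) = 0 then yb j ≠ yb j' else xb j ≠ xb j')
      rw [if_neg (by decide)]
      intro hxj
      have hcomb : ∀ j j' k k' : Fin 4, j ≠ j' → xb j = xb j' → k ≠ k' → yb k = yb k' →
          (∃ l, (l = k ∨ l = k') ∧ ¬ (l = j ∨ l = j')) ∧ (∃ l, (l = j ∨ l = j') ∧ ¬ (l = k ∨ l = k'))
          ∧ ∃ l, (l = j ∨ l = j') ∧ (l = k ∨ l = k') := by decide
      obtain ⟨⟨l1, h1, h1'⟩, ⟨l2, h2, h2'⟩, ⟨l3, h3, h3'⟩⟩ := hcomb j j' k k' hj hxj hk hyk
      rcases hM S hS W hW with hSW | hWS | hd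
      · exact h1' ((hWj (Sum.inr (l1, 0))).1 (hSW ((hSk (Sum.inr (l1, 0))).2 h1)))
      · exact h2' ((hSk (Sum.inr (l2, 0))).1 (hWS ((hWj (Sum.inr (l2, 0))).2 h2)))
      · exact Finset.disjoint_left.1 hd ((hSk (Sum.inr (l3, 0))).2 h3')
          ((hWj (Sum.inr (l3, 0))).2 h3)
  · push Not at h0
    refine ⟨0, fun W hW => good_le 0 W ?_⟩
    rcases h W hW with h1 | h1 | ⟨j, j', hj, hWj⟩
    · exact Or.inl h1
    · exact Or.inr (Or.inl h1)
    · refine Or.inr (Or.inr ⟨j, j', hj, ?_, hWj⟩)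
      show (if (0 : Fin 2) = 0 then yb j ≠ yb j' else xb j ≠ xb j')
      rw [if_pos rfl]
      intro hyj
      obtain ⟨i, hi⟩ := h0 W hW j j' hj hyj
      rcases hi with ⟨h2, h3, h4⟩ | ⟨h2, h3⟩
      · rcases (hWj i).1 h2 with h5 | h5
        · exact h3 h5
        · exact h4 h5
      · exact h2 ((hWj i).2 h3)

end Pool.Agent.TH629.Tree
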