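import Pool.Agent.TH629.Tree.Bound

/-!
The chain, the two Steiner trees, and their lengths.
-/

set_option autoImplicit false

namespace Pool.Agent.TH629.Tree

open scoped ENNReal NNReal Topology
open MeasureTheory Metric Filter Pool.Agent.Helper752

/-- the points of the parabola that contains the vertices of the chain -/
noncomputable def pt (h : ℝ) : E2 := !₂[fx h, fy h]

/-- the chain -/
noncomputable def Z : Set E2 := (⋃ k : ℕ, segment ℝ (pt (hh k)) (pt (hh (k + 1)))) ∪ {pt 0}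

/-- the horizontal tree -/
noncomputable def SA : Set E2 :=
  segment ℝ !₂[-1, 1] !₂[-(1 - √3 / 3), 0] ∪ segment ℝ !₂[-1, -1] !₂[-(1 - √3 / 3), 0]
    ∪ segment ℝ !₂[-(1 - √3 / 3), 0] !₂[1 - √3 / 3, 0]
    ∪ segment ℝ !₂[1 - √3 / 3, 0] !₂[1, 1] ∪ segment ℝ !₂[1 - √3 / 3, 0] !₂[1, -1]

/-- the vertical tree -/
noncomputable def SB : Set E2 :=
  segment ℝ !₂[1, -1] !₂[0, -(1 - √3 / 3)] ∪ segment ℝ !₂[-1, -1] !₂[0, -(1 - √3 / 3)]
    ∪ segment ℝ !₂[0, -(1 - √3 / 3)] !₂[0, 1 - √3 / 3]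
    ∪ segment ℝ !₂[0, 1 - √3 / 3] !₂[1, 1] ∪ segment ℝ !₂[0, 1 - √3 / 3] !₂[-1, 1]

/-- the terminals -/
noncomputable def AA : Set E2 :=
  insert (pt 0) (Set.range fun k => pt (hh k)) ∪ {!₂[-1, 1], !₂[-1, -1], !₂[1, -1]}

theorem compact_segment (a b : E2) : IsCompact (segment ℝ a b) := by
  rw [segment_eq_image_lineMap]
  exact isCompact_Icc.image AffineMap.lineMap_continuous

theorem conn_segment (a b : E2) : IsConnected (segment ℝ a b) :=
  (convex_segment a b).isConnected ⟨a, left_mem_segment ℝ a b⟩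

theorem conn_tree (a b c d e f : E2) :
    IsConnected (segment ℝ a e ∪ segment ℝ b e ∪ segment ℝ e f ∪ segment ℝ f c
      ∪ segment ℝ f d) := by
  refine IsConnected.union ⟨f, ?_, left_mem_segment ℝ f d⟩ (IsConnected.union
    ⟨f, ?_, left_mem_segment ℝ f c⟩ (IsConnected.union ⟨e, ?_, left_mem_segment ℝ e f⟩
    (IsConnected.union ⟨e, right_mem_segment ℝ a e, right_mem_segment ℝ b e⟩
      (conn_segment _ _) (conn_segment _ _)) (conn_segment _ _)) (conn_segment _ _))
      (conn_segment _ _)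
  · exact Or.inl (Or.inr (right_mem_segment ℝ e f))
  · exact Or.inr (right_mem_segment ℝ e f)
  · exact Or.inr (right_mem_segment ℝ b e)

theorem len_tree (a b c d e f : E2) (ℓ m : ℝ) (hℓ : 0 ≤ ℓ) (hm : 0 ≤ m) (h1 : dist a e ≤ ℓ)
    (h2 : dist b e ≤ ℓ) (h3 : dist e f ≤ m) (h4 : dist f c ≤ ℓ) (h5 : dist f d ≤ ℓ) :
    μH[1] (segment ℝ a e ∪ segment ℝ b e ∪ segment ℝ e f ∪ segment ℝ f c
      ∪ segment ℝ f d) ≤ ENNReal.ofReal (4 * ℓ + m) := by
  have e1 : 4 * ℓ + m = ((((ℓ + ℓ) + m) + ℓ) + ℓ) := by ring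
  rw [e1, ENNReal.ofReal_add (by positivity) hℓ, ENNReal.ofReal_add (by positivity) hℓ,
    ENNReal.ofReal_add (by positivity) hm, ENNReal.ofReal_add hℓ hℓ]
  have hs : ∀ (a b : E2) (ℓ : ℝ), dist a b ≤ ℓ → μH[1] (segment ℝ a b) ≤ ENNReal.ofReal ℓ := by
    intro a b ℓ h
    rw [hausdorffMeasure_segment, edist_dist]
    exact ENNReal.ofReal_le_ofReal h
  refine (measure_union_le _ _).trans (add_le_add ?_ (hs _ _ _ h5))
  refine (measure_union_le _ _).trans (add_le_add ?_ (hs _ _ _ h4))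
  refine (measure_union_le _ _).trans (add_le_add ?_ (hs _ _ _ h3))
  exact (measure_union_le _ _).trans (add_le_add (hs _ _ _ h1) (hs _ _ _ h2))

theorem dist_le_of (a b c d ℓ : ℝ) (hℓ : 0 ≤ ℓ) (h : (a - c) ^ 2 + (b - d) ^ 2 ≤ ℓ ^ 2) :
    dist (!₂[a, b] : E2) !₂[c, d] ≤ ℓ := by
  rw [EuclideanSpace.dist_eq]
  apply Real.sqrt_le_iff.2 ⟨hℓ, _⟩
  simpa [Fin.sum_univ_two, Real.dist_eq, sq_abs] using h

theorem SA_len : μH[1] SA ≤ ENNReal.ofReal (2 + 2 * √3) := by
  have h1 := sq3_lo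
  have h2 := sq3_hi
  have h3 := sq3
  have h := len_tree !₂[-1, 1] !₂[-1, -1] !₂[1, 1] !₂[1, -1] !₂[-(1 - √3 / 3), 0] !₂[1 - √3 / 3, 0]
    (2 * √3 / 3) (2 - 2 * √3 / 3) (by positivity) (by linarith)
    (dist_le_of _ _ _ _ _ (by positivity) (by nlinarith))
    (dist_le_of _ _ _ _ _ (by positivity) (by nlinarith))
    (dist_le_of _ _ _ _ _ (by linarith) (by nlinarith))
    (dist_le_of _ _ _ _ _ (by positivity) (by nlinarith))
    (dist_le_of _ _ _ _ _ (by positivity) (by nlinarith))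
  have e : 4 * (2 * √3 / 3) + (2 - 2 * √3 / 3) = 2 + 2 * √3 := by ring
  rw [e] at h
  exact h

theorem SB_len : μH[1] SB ≤ ENNReal.ofReal (2 + 2 * √3) := by
  have h1 := sq3_lo
  have h2 := sq3_hi
  have h3 := sq3
  have h := len_tree !₂[1, -1] !₂[-1, -1] !₂[1, 1] !₂[-1, 1] !₂[0, -(1 - √3 / 3)] !₂[0, 1 - √3 / 3]
    (2 * √3 / 3) (2 - 2 * √3 / 3) (by positivity) (by linarith)
    (dist_le_of _ _ _ _ _ (by positivity) (by nlinarith))
    (dist_le_of _ _ _ _ _ (by positivity) (by nlinarith))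
    (dist_le_of _ _ _ _ _ (by linarith) (by nlinarith))
    (dist_le_of _ _ _ _ _ (by positivity) (by nlinarith))
    (dist_le_of _ _ _ _ _ (by positivity) (by nlinarith))
  have e : 4 * (2 * √3 / 3) + (2 - 2 * √3 / 3) = 2 + 2 * √3 := by ring
  rw [e] at h
  exact h

theorem SA_compact : IsCompact SA :=
  ((((compact_segment _ _).union (compact_segment _ _)).union (compact_segment _ _)).union
    (compact_segment _ _)).union (compact_segment _ _)

theorem SB_compact : IsCompact SB :=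
  ((((compact_segment _ _).union (compact_segment _ _)).union (compact_segment _ _)).union
    (compact_segment _ _)).union (compact_segment _ _)

theorem fx_zero' : fx 0 = 1 + 1 / 200 := by simp [fx]

theorem dist_pt (h h' : ℝ) (h0 : 0 ≤ h) (h1 : h ≤ 1) (h0' : 0 ≤ h') (h1' : h' ≤ 1) :
    dist (pt h) (pt h') ≤ |h - h'| := by
  unfold pt
  apply dist_le_of _ _ _ _ _ (abs_nonneg _)
  rw [sq_abs]
  have e1 : fx h - fx h' = (h' - h) / 200 := by unfold fx; ring
  have e2 : fy h - fy h' = (h' - h) * ((2 / 5 + (1 / 15) * (h + h')) / 400) := by unfold fy; ring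
  rw [e1, e2]
  have e3 : (2 / 5 + (1 / 15) * (h + h')) / 400 ≤ 1 / 2 := by linarith
  have e4 : 0 ≤ (2 / 5 + (1 / 15) * (h + h')) / 400 := by positivity
  have e5 : ((2 / 5 + (1 / 15) * (h + h')) / 400) ^ 2 ≤ 1 / 4 := by nlinarith
  nlinarith [sq_nonneg (h' - h)]

theorem tendsto_hh : Tendsto hh atTop (𝓝 0) := by
  unfold hh
  exact tendsto_pow_atTop_nhds_zero_of_lt_one (by norm_num) (by norm_num)

theorem hh_anti {j k : ℕ} (h : j ≤ k) : hh k ≤ hh j := by
  unfold hh
  exact pow_le_pow_of_le_one (by norm_num) (by norm_num) h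

theorem tendsto_pt : Tendsto (fun k => pt (hh k)) atTop (𝓝 (pt 0)) := by
  rw [tendsto_iff_dist_tendsto_zero]
  refine squeeze_zero (fun _ => dist_nonneg) (fun k => ?_) tendsto_hh
  have h1 := dist_pt (hh k) 0 (hh_pos k).le (hh_le k) le_rfl zero_le_one
  rw [sub_zero, abs_of_pos (hh_pos k)] at h1
  exact h1

/-- far edges of the chain are close to its end -/
theorem seg_close {k n : ℕ} (hk : n ≤ k) :
    segment ℝ (pt (hh k)) (pt (hh (k + 1))) ⊆ closedBall (pt 0) (hh n) := by
  apply (convex_closedBall _ _).segment_subset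
  · rw [mem_closedBall]
    have h1 := dist_pt (hh k) 0 (hh_pos k).le (hh_le k) le_rfl zero_le_one
    rw [sub_zero, abs_of_pos (hh_pos k)] at h1
    exact h1.trans (hh_anti hk)
  · rw [mem_closedBall]
    have h1 := dist_pt (hh (k + 1)) 0 (hh_pos _).le (hh_le _) le_rfl zero_le_one
    rw [sub_zero, abs_of_pos (hh_pos _)] at h1
    exact h1.trans (hh_anti (by omega))

theorem Z_closed : IsClosed Z := by
  rw [← closure_subset_iff_isClosed]
  intro x hx
  by_cases hxe : ∃ k, x ∈ segment ℝ (pt (hh k)) (pt (hh (k + 1)))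
  · obtain ⟨k, hk⟩ := hxe
    exact Or.inl (Set.mem_iUnion.2 ⟨k, hk⟩)
  · push Not at hxe
    right
    have h1 : ∀ n : ℕ, dist x (pt 0) ≤ hh n := by
      intro n
      have hsub : Z ⊆ (⋃ k ∈ Finset.range n, segment ℝ (pt (hh k)) (pt (hh (k + 1))))
          ∪ closedBall (pt 0) (hh n) := by
        rintro y (hy | hy)
        · obtain ⟨k, hk⟩ := Set.mem_iUnion.1 hy
          by_cases hkn : k < n
          · left
            simp only [Set.mem_iUnion]
            exact ⟨k, Finset.mem_range.2 hkn, hk⟩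
          · right
            exact seg_close (by omega) hk
        · right
          rw [Set.mem_singleton_iff] at hy
          rw [hy]
          exact mem_closedBall_self (hh_pos n).le
      have hcl : IsClosed ((⋃ k ∈ Finset.range n, segment ℝ (pt (hh k)) (pt (hh (k + 1))))
          ∪ closedBall (pt 0) (hh n)) := by
        apply IsClosed.union _ isClosed_closedBall
        exact isClosed_biUnion_finset fun k _ => (compact_segment _ _).isClosed
      have h2 := (closure_minimal hsub hcl) hx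
      rcases h2 with h2 | h2
      · simp only [Set.mem_iUnion] at h2
        obtain ⟨k, _, hk⟩ := h2
        exact absurd hk (hxe k)
      · exact h2
    have h3 : dist x (pt 0) ≤ 0 := ge_of_tendsto' tendsto_hh h1
    exact dist_le_zero.1 h3

theorem Z_compact : IsCompact Z := by
  apply Metric.isCompact_of_isClosed_isBounded Z_closed
  apply (isBounded_closedBall (x := pt 0) (r := 1)).subset
  rintro y (hy | hy)
  · obtain ⟨k, hk⟩ := Set.mem_iUnion.1 hy
    have := seg_close (Nat.zero_le k) hk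
    rwa [hh_zero] at this
  · rw [Set.mem_singleton_iff] at hy
    rw [hy]
    exact mem_closedBall_self zero_le_one

theorem Z_conn : IsConnected Z := by
  have h1 : IsPreconnected (⋃ k : ℕ, segment ℝ (pt (hh k)) (pt (hh (k + 1)))) := by
    apply IsPreconnected.iUnion_of_chain
    · intro k
      exact (conn_segment _ _).isPreconnected
    · intro k
      exact ⟨pt (hh (k + 1)), right_mem_segment ℝ _ _, left_mem_segment ℝ _ _⟩
  have h2 : IsConnected (⋃ k : ℕ, segment ℝ (pt (hh k)) (pt (hh (k + 1)))) :=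
    ⟨⟨pt (hh 0), Set.mem_iUnion.2 ⟨0, left_mem_segment ℝ _ _⟩⟩, h1⟩
  refine h2.subset_closure Set.subset_union_left ?_
  rintro y (hy | hy)
  · exact subset_closure hy
  · rw [Set.mem_singleton_iff] at hy
    rw [hy]
    refine mem_closure_of_tendsto tendsto_pt (Eventually.of_forall fun k => ?_)
    exact Set.mem_iUnion.2 ⟨k, left_mem_segment ℝ _ _⟩

theorem pt_one : pt (hh 0) = !₂[1, 1] := by
  rw [hh_zero]
  simp [pt, fx, fy]

theorem one_mem_Z : (!₂[1, 1] : E2) ∈ Z := by
  rw [← pt_one]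
  exact Or.inl (Set.mem_iUnion.2 ⟨0, left_mem_segment ℝ _ _⟩)

theorem ST_compact : IsCompact (SA ∪ Z) ∧ IsCompact (SB ∪ Z) :=
  ⟨SA_compact.union Z_compact, SB_compact.union Z_compact⟩

theorem ST_conn : IsConnected (SA ∪ Z) ∧ IsConnected (SB ∪ Z) := by
  constructor
  · exact IsConnected.union ⟨!₂[1, 1], Or.inl (Or.inr (right_mem_segment ℝ _ _)), one_mem_Z⟩
      (conn_tree _ _ _ _ _ _) Z_conn
  · exact IsConnected.union ⟨!₂[1, 1], Or.inl (Or.inr (right_mem_segment ℝ _ _)), one_mem_Z⟩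
      (conn_tree _ _ _ _ _ _) Z_conn

theorem AA_sub : AA ⊆ SA ∪ Z ∧ AA ⊆ SB ∪ Z := by
  have hZ : insert (pt 0) (Set.range fun k => pt (hh k)) ⊆ Z := by
    intro y hy
    rcases hy with hy | ⟨k, rfl⟩
    · exact Or.inr hy
    · exact Or.inl (Set.mem_iUnion.2 ⟨k, left_mem_segment ℝ _ _⟩)
  constructor
  · rintro y (hy | hy)
    · exact Or.inr (hZ hy)
    · left
      rcases hy with rfl | rfl | rfl
      · exact Or.inl (Or.inl (Or.inl (Or.inl (left_mem_segment ℝ _ _))))
      · exact Or.inl (Or.inl (Or.inl (Or.inr (left_mem_segment ℝ _ _))))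
      · exact Or.inr (right_mem_segment ℝ _ _)
  · rintro y (hy | hy)
    · exact Or.inr (hZ hy)
    · left
      rcases hy with rfl | rfl | rfl
      · exact Or.inr (right_mem_segment ℝ _ _)
      · exact Or.inl (Or.inl (Or.inl (Or.inr (left_mem_segment ℝ _ _))))
      · exact Or.inl (Or.inl (Or.inl (Or.inl (left_mem_segment ℝ _ _))))

theorem AA_compact : IsCompact AA :=
  tendsto_pt.isCompact_insert_range.union (Set.toFinite _).isCompact

theorem AA_countable : AA.Countable :=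
  (Set.countable_range _).insert _ |>.union (Set.toFinite _).countable

theorem pt_inj {h h' : ℝ} (e : pt h = pt h') : h = h' := by
  have h1 : (pt h) 0 = (pt h') 0 := by rw [e]
  simp [pt, fx] at h1
  exact h1

theorem hh_inj : Function.Injective hh := by
  apply StrictAnti.injective
  apply strictAnti_nat_of_succ_lt
  intro n
  rw [hh_succ]
  linarith [hh_pos n]

theorem AA_infinite : ¬ AA.Finite := by
  intro h
  have h1 : (Set.range fun k => pt (hh k)).Finite :=
    h.subset fun y hy => Or.inl (Set.mem_insert_of_mem _ hy)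
  exact Set.infinite_range_of_injective (fun j k hjk => hh_inj (pt_inj hjk)) h1

/-- the length of the chain -/
theorem Z_len : μH[1] Z ≤ ∑' k, ENNReal.ofReal (ll k) := by
  have h1 : μH[1] ({pt 0} : Set E2) = 0 := by
    have := Measure.nullSingletonClass_hausdorff E2 (d := 1) zero_lt_one
    exact measure_singleton _
  refine (measure_union_le _ _).trans ?_
  rw [h1, add_zero]
  refine (measure_iUnion_le _).trans ?_
  apply ENNReal.tsum_le_tsum
  intro k
  rw [hausdorffMeasure_segment, edist_dist]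
  apply ENNReal.ofReal_le_ofReal
  unfold pt
  apply dist_le_of _ _ _ _ _ (ll_nonneg k)
  have := ll_sq k
  nlinarith

theorem tsum_lt : ∑' k, ENNReal.ofReal (ll k) < ∞ := by
  have h1 : ∑' k, ENNReal.ofReal (ll k) ≤ ENNReal.ofReal (1 / 100) := by
    apply ENNReal.tsum_le_of_sum_range_le
    intro n
    rw [← ENNReal.ofReal_sum_of_nonneg fun k _ => ll_nonneg k]
    exact ENNReal.ofReal_le_ofReal (sum_ll_le n)
  exact lt_of_le_of_lt h1 ENNReal.ofReal_lt_top

theorem ST_len : μH[1] (SA ∪ Z) ≤ ENNReal.ofReal (2 + 2 * √3) + ∑' k, ENNReal.ofReal (ll k) ∧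
    μH[1] (SB ∪ Z) ≤ ENNReal.ofReal (2 + 2 * √3) + ∑' k, ENNReal.ofReal (ll k) :=
  ⟨(measure_union_le _ _).trans (add_le_add SA_len Z_len),
    (measure_union_le _ _).trans (add_le_add SB_len Z_len)⟩

theorem total_lt : ENNReal.ofReal (2 + 2 * √3) + ∑' k, ENNReal.ofReal (ll k) < ∞ :=
  ENNReal.add_lt_top.2 ⟨ENNReal.ofReal_lt_top, tsum_lt⟩

/-- the lower bound in the limit -/
theorem lower_all {W : Set E2} (hW : IsCompact W) (hc : IsConnected W)
    (hq : ∀ a ∈ AA, ∀ u v : ℝ, ∃ q ∈ W, |q 0 - a 0| ≤ 1 / 100 ∧ |q 1 - a 1| ≤ 1 / 100 ∧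
      0 ≤ u * (q 0 - a 0) + v * (q 1 - a 1)) :
    ENNReal.ofReal (2 + 2 * √3) + ∑' k, ENNReal.ofReal (ll k) ≤ μH[1] W := by
  have hn : ∀ n : ℕ, ENNReal.ofReal (2 + 2 * √3) + ∑ k ∈ Finset.range n, ENNReal.ofReal (ll k)
      ≤ μH[1] W := by
    intro n
    have h1 := lower n hW hc (by
      intro i
      have h2 : (!₂[ax i, ay i] : E2) ∈ AA := by
        rcases i with (_ | k) | ⟨j, t⟩
        · exact Or.inl (Or.inr ⟨n + 1, rfl⟩)
        · exact Or.inl (Or.inr ⟨k + 1, rfl⟩)
        · fin_cases j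
          · refine Or.inl (Or.inr ⟨0, ?_⟩)
            simp only [pt_one]
            simp [ax, ay, sx, sy]
          · refine Or.inr ?_
            simp [ax, ay, sx, sy]
          · refine Or.inr ?_
            simp [ax, ay, sx, sy]
          · refine Or.inr ?_
            simp [ax, ay, sx, sy]
      have h3 := hq _ h2 (dx i) (dy i)
      simpa using h3)
    refine le_trans ?_ h1
    rw [← ENNReal.ofReal_sum_of_nonneg fun k _ => ll_nonneg k,
      ← ENNReal.ofReal_add (by positivity) (Finset.sum_nonneg fun k _ => ll_nonneg k)]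
    apply ENNReal.ofReal_le_ofReal
    rw [Finset.sum_range_succ]
    linarith [ll_nonneg n]
  rw [ENNReal.tsum_eq_iSup_nat, ENNReal.add_iSup]
  exact iSup_le hn

end Pool.Agent.TH629.Tree
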